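import Pool.Agent.R684.PN.Stm
import Pool.Agent.H919R3.Grp.GG

set_option autoImplicit false

/-!
# MP_a85771_al: virtual gap between first Betti and first L²-Betti numbers.
Definitions and statements of the pieces; complete proofs in NOTES.md
-/

namespace Pool.Agent.R684.VG

open Pool.Agent.W649.ZL Pool.Agent.R684.PN Pool.Agent.H919R3.Grp

/-- derivations on `Γ` with values in the functions on `Q`, `Γ` acting through `q` -/
def ZZ {Γ Q : Type} [Group Γ] [Group Q] (q : Γ →* Q) : Submodule ℂ (Γ → Q → ℂ) where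
  carrier := {c | ∀ (g h : Γ) (x : Q), c (g * h) x = c g x + c h ((q g)⁻¹ * x)}
  add_mem' := by
    intro c d hc hd g h x
    simp only [Pi.add_apply, hc g h x, hd g h x]
    ring
  zero_mem' := by intro g h x; simp
  smul_mem' := by
    intro a c hc g h x
    simp only [Pi.smul_apply, hc g h x, smul_eq_mul]
    ring

/-- derivations on `L` with values in the functions on `L ⧸ H` -/
def Zp (L : Type) [Group L] (H : Subgroup L) : Submodule ℂ (L → (L ⧸ H) → ℂ) where
  carrier := {c | ∀ (g h : L) (x : L ⧸ H), c (g * h) x = c g x + c h (g⁻¹ • x)}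
  add_mem' := by
    intro c d hc hd g h x
    simp only [Pi.add_apply, hc g h x, hd g h x]
    ring
  zero_mem' := by intro g h x; simp
  smul_mem' := by
    intro a c hc g h x
    simp only [Pi.smul_apply, hc g h x, smul_eq_mul]
    ring

/-- the `ℓ²` coboundaries, restricted to the generators `σ s` -/
def BB {Γ S : Type} [Group Γ] (σ : S → Γ) : Submodule ℂ (EE Γ S) where
  carrier := {f | ∃ u : EE Γ Unit, ∀ x s, f (x, s) = u ((σ s)⁻¹ * x, ()) - u (x, ())}
  add_mem' := by
    rintro f g ⟨u, hu⟩ ⟨v, hv⟩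
    refine ⟨u + v, fun x s => ?_⟩
    rw [lp.coeFn_add, lp.coeFn_add, Pi.add_apply, Pi.add_apply, Pi.add_apply, hu, hv]
    ring
  zero_mem' := ⟨0, fun x s => by simp⟩
  smul_mem' := by
    rintro a f ⟨u, hu⟩
    refine ⟨a • u, fun x s => ?_⟩
    rw [lp.coeFn_smul, lp.coeFn_smul, Pi.smul_apply, Pi.smul_apply, Pi.smul_apply, hu]
    simp only [smul_eq_mul]
    ring

/-- `σ s`, `s ∈ S`, generate `Γ` as a monoid -/
def Gen {Γ S : Type} [Group Γ] (σ : S → Γ) : Prop := ∀ g : Γ, ∃ L : List S, (L.map σ).prod = g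

/-- Passage to the limit (the proof of PN-LIM with `r` for `1` and `A` for `{L₀}`). -/
def S_LIMG : Prop := ∀ (Γ S : Type) [Group Γ] [Fintype S] (σ : S → Γ) (A : Set (List S)) (r : ℝ),
  (∀ T : Finset Γ, ∃ (G : Type) (_ : Group G) (q : Γ →* G), Set.InjOn q T ∧
    r ≤ vd (UU σ q A)) → r ≤ vd (UU σ (MonoidHom.id Γ) A)

/-- Trace formula at finite level. -/
def S_TR : Prop := ∀ (Γ Q S : Type) [Group Γ] [Group Q] [Finite Q] [Fintype S] (σ : S → Γ),
  Gen σ → ∀ q : Γ →* Q, vd (UU σ q ∅) * Nat.card Q = Module.finrank ℂ (ZZ q)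

/-- The coboundaries have dimension at most one. -/
def S_BB : Prop := ∀ (Γ S : Type) [Group Γ] [Fintype S] (σ : S → Γ), vd (BB σ) ≤ 1

/-- Shapiro's lemma. -/
def S_SH : Prop := ∀ (L : Type) [Group L] [Group.FG L] (H : Subgroup L) [H.FiniteIndex],
  Module.finrank ℂ (Zp L H) + 1 = Module.finrank ℂ (Additive H →+ ℂ) + H.index

/-- The Baumslag–Solitar group `BS(1,2) = ⟨a, b | b a b⁻¹ = a²⟩`. -/
def S_BS : Prop := ∃ (B : Type) (_ : Group B) (a b : B),
  Subgroup.closure ({a, b} : Set B) = ⊤ ∧ b * a * b⁻¹ = a * a ∧ a ≠ 1 ∧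
  (∀ (g : B) (n : ℕ), 0 < n → g ^ n = 1 → g = 1) ∧ ResFin B ∧
  ∀ (E : Type) [Group E] (x y : E), y * x * y⁻¹ = x * x → ∃ h : B →* E, h a = x ∧ h b = y

/-- Universal property of `Wr B = B * ℤ`. -/
def S_WRU : Prop := ∀ (B : Type) [Group B] (E : Type) [Group E] (f : B →* E) (z : E),
  ∃ h : Wr B →* E, (∀ b : B, h (SemidirectProduct.inr b) = f b) ∧ h xx = z

/-- Derivations of `BS(1,2) * ℤ` into permutation modules. -/
def S_ZG : Prop := ∀ (B : Type) [Group B] (a b : B), Subgroup.closure ({a, b} : Set B) = ⊤ →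
  b * a * b⁻¹ = a * a →
  (∀ (E : Type) [Group E] (x y : E), y * x * y⁻¹ = x * x → ∃ h : B →* E, h a = x ∧ h b = y) →
  ∀ (H : Subgroup (Wr B)) [H.FiniteIndex], Module.finrank ℂ (Zp (Wr B) H) = 2 * H.index

/-- the fundamental group of the closed orientable surface of genus `g` -/
abbrev SurfO (g : ℕ) : Type := PresentedGroup
  ({(List.ofFn fun i : Fin g => FreeGroup.of (i, false) * FreeGroup.of (i, true) *
    (FreeGroup.of (i, false))⁻¹ * (FreeGroup.of (i, true))⁻¹).prod} :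
    Set (FreeGroup (Fin g × Bool)))

/-- the fundamental group of the closed non-orientable surface of genus `k`
(connected sum of `k` projective planes, Euler characteristic `2 - k`) -/
abbrev SurfN (k : ℕ) : Type := PresentedGroup
  ({(List.ofFn fun i : Fin k => FreeGroup.of i * FreeGroup.of i).prod} : Set (FreeGroup (Fin k)))

/-- `BS(1,2) * ℤ` is not free and not a hyperbolic surface group. -/
def S_NF : Prop := ∀ (B : Type) [Group B] (a b : B), Subgroup.closure ({a, b} : Set B) = ⊤ →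
  b * a * b⁻¹ = a * a → a ≠ 1 →
  (∀ X : Type, IsEmpty (Wr B ≃* FreeGroup X)) ∧ (∀ g : ℕ, 2 ≤ g → IsEmpty (Wr B ≃* SurfO g)) ∧
  (∀ k : ℕ, 3 ≤ k → IsEmpty (Wr B ≃* SurfN k))

end Pool.Agent.R684.VG
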