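import Pool.Agent.R684.VG.Stm
import Pool.Agent.R684.PN.Injc

set_option autoImplicit false

/-! # Assembly -/

namespace Pool.Agent.R684.VG

open Pool.Agent.W649.ZL Pool.Agent.R684.PN Pool.Agent.H919R3.Grp

/-- homomorphisms to `ℂ` of isomorphic groups -/
theorem hom_congr {A B : Type} [Group A] [Group B] (e : A ≃* B) :
    Module.finrank ℂ (Additive A →+ ℂ) = Module.finrank ℂ (Additive B →+ ℂ) := by
  refine LinearEquiv.finrank_eq
    { toFun := fun f => f.comp (MulEquiv.toAdditive e.symm).toAddMonoidHom
      invFun := fun f => f.comp (MulEquiv.toAdditive e).toAddMonoidHom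
      map_add' := fun f g => rfl
      map_smul' := fun c f => rfl
      left_inv := fun f => by
        ext x
        simp
      right_inv := fun f => by
        ext x
        simp }

theorem ZZ_eq_Zp {L : Type} [Group L] (K : Subgroup L) [K.Normal] :
    ZZ (QuotientGroup.mk' K) = Zp L K := by
  ext c
  constructor
  · intro h g k x
    rw [h g k x]
    congr 2
  · intro h g k x
    rw [h g k x]
    congr 2

section
variable {B : Type} [Group B] {a b : B}

theorem hom_sub (hSH : S_SH) (hWRU : S_ZG)
    (hcl : Subgroup.closure ({a, b} : Set B) = ⊤) (hab : b * a * b⁻¹ = a * a)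
    (hu : ∀ (E : Type) [Group E] (x y : E), y * x * y⁻¹ = x * x → ∃ h : B →* E, h a = x ∧ h b = y)
    [Group.FG (Wr B)] (H : Subgroup (Wr B)) [H.FiniteIndex] :
    Module.finrank ℂ (Additive H →+ ℂ) = H.index + 1 := by
  have h1 := hSH (Wr B) H
  have h2 := hWRU B a b hcl hab hu H
  omega

theorem exists_K {G : Type} [Group G] (hG : ResFin G) (M : Subgroup G) [M.FiniteIndex]
    (T : Finset G) : ∃ K : Subgroup G, K.Normal ∧ K.FiniteIndex ∧ K ≤ M ∧
      ∀ t ∈ T, t ≠ 1 → t ∉ K := by
  classical
  have h : ∃ K : Subgroup G, K.FiniteIndex ∧ K ≤ M ∧ ∀ t ∈ T, t ≠ 1 → t ∉ K := by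
    induction T using Finset.induction_on with
    | empty => exact ⟨M, inferInstance, le_rfl, fun t ht => absurd ht (Finset.notMem_empty t)⟩
    | insert x T hx ih =>
      obtain ⟨K, hK, hKM, hKT⟩ := ih
      by_cases hx1 : x = 1
      · refine ⟨K, hK, hKM, fun t ht h1 => ?_⟩
        rcases Finset.mem_insert.1 ht with rfl | ht
        · exact absurd hx1 h1
        · exact hKT t ht h1
      · obtain ⟨N, hN, hxN⟩ := hG x hx1
        refine ⟨K ⊓ N, inferInstance, inf_le_left.trans hKM, fun t ht h1 htK => ?_⟩
        rcases Finset.mem_insert.1 ht with rfl | ht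
        · exact hxN (Subgroup.mem_inf.1 htK).2
        · exact hKT t ht h1 (Subgroup.mem_inf.1 htK).1
  obtain ⟨K, hK, hKM, hKT⟩ := h
  refine ⟨K.normalCore, inferInstance, inferInstance, K.normalCore_le.trans hKM,
    fun t ht h1 htK => hKT t ht h1 (K.normalCore_le htK)⟩

/-- lower bound of the first `L²`-Betti number of a finite index subgroup -/
theorem lower (hSH : S_SH) (hZG : S_ZG) (hTR : S_TR) (hLIM : S_LIMG) (hBB : S_BB)
    (hcl : Subgroup.closure ({a, b} : Set B) = ⊤) (hab : b * a * b⁻¹ = a * a)
    (hu : ∀ (E : Type) [Group E] (x y : E), y * x * y⁻¹ = x * x → ∃ h : B →* E, h a = x ∧ h b = y)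
    [Group.FG (Wr B)] (hrf : ResFin (Wr B)) {L : Type} [Group L] (j : L →* Wr B)
    (hj : Function.Injective j) [j.range.FiniteIndex] {S : Type} [Fintype S] (σ : S → L)
    (hσ : Gen σ) : (j.range.index : ℝ) ≤ vd (UU σ (MonoidHom.id L) ∅) - vd (BB σ) := by
  classical
  have hfg : Group.FG L := by
    rw [Group.fg_iff]
    refine ⟨Set.range σ, ?_, Set.finite_range σ⟩
    rw [eq_top_iff]
    intro g _
    obtain ⟨W, rfl⟩ := hσ g
    apply Subgroup.list_prod_mem
    intro x hx
    obtain ⟨s, -, rfl⟩ := List.mem_map.1 hx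
    exact Subgroup.subset_closure ⟨s, rfl⟩
  have key : ((j.range.index : ℝ) + 1) ≤ vd (UU σ (MonoidHom.id L) ∅) := by
    apply hLIM
    intro T
    obtain ⟨K, hKn, hKf, hKM, hKT⟩ := exists_K hrf j.range
      ((T ×ˢ T).image fun p => j (p.1⁻¹ * p.2))
    have hK' : (K.comap j).Normal := inferInstance
    have hK'f : (K.comap j).FiniteIndex := ⟨by
      rw [Subgroup.index_comap]
      exact (inferInstance : (K.subgroupOf j.range).FiniteIndex).index_ne_zero⟩
    have hfin : Finite (L ⧸ K.comap j) := inferInstance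
    refine ⟨L ⧸ K.comap j, inferInstance, QuotientGroup.mk' (K.comap j), ?_, le_of_eq ?_⟩
    · intro s hs t ht hst
      by_contra hne
      have h1 : s⁻¹ * t ∈ K.comap j := QuotientGroup.eq.1 hst
      refine hKT (j (s⁻¹ * t)) (Finset.mem_image.2 ⟨(s, t), Finset.mk_mem_product hs ht, rfl⟩) ?_
        (Subgroup.mem_comap.1 h1)
      intro h2
      rw [← map_one j] at h2
      exact hne (inv_mul_eq_one.1 (hj h2))
    · have h1 := hTR L (L ⧸ K.comap j) S σ hσ (QuotientGroup.mk' (K.comap j))
      rw [ZZ_eq_Zp] at h1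
      have h2 := hSH L (K.comap j)
      have h3 := hom_sub hSH hZG hcl hab hu K
      have h4 : Module.finrank ℂ (Additive (K.comap j) →+ ℂ)
          = Module.finrank ℂ (Additive K →+ ℂ) := by
        apply hom_congr
        have e : (K.comap j).map j = K := by
          rw [Subgroup.map_comap_eq, inf_eq_right.2 hKM]
        exact ((K.comap j).equivMapOfInjective j hj).trans (MulEquiv.subgroupCongr e)
      have h5 : K.index = j.range.index * (K.comap j).index := by
        rw [Subgroup.index_comap, mul_comm, Subgroup.relIndex_mul_index hKM]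
      have h6 : Nat.card (L ⧸ K.comap j) = (K.comap j).index := rfl
      have h7 : 0 < (K.comap j).index := Nat.pos_of_ne_zero hK'f.index_ne_zero
      have h8 : Module.finrank ℂ (Zp L (K.comap j))
          = (j.range.index + 1) * (K.comap j).index := by
        have : (j.range.index + 1) * (K.comap j).index
            = j.range.index * (K.comap j).index + (K.comap j).index := by ring
        omega
      rw [h6, h8] at h1
      push_cast at h1
      have h9 : ((K.comap j).index : ℝ) ≠ 0 := by exact_mod_cast h7.ne'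
      exact (mul_right_cancel₀ h9 h1).symm
  have h2 := hBB L S σ
  linarith

theorem upper (hSH : S_SH) (hZG : S_ZG)
    (hcl : Subgroup.closure ({a, b} : Set B) = ⊤) (hab : b * a * b⁻¹ = a * a)
    (hu : ∀ (E : Type) [Group E] (x y : E), y * x * y⁻¹ = x * x → ∃ h : B →* E, h a = x ∧ h b = y)
    [Group.FG (Wr B)] {L : Type} [Group L] (j : L →* Wr B)
    (hj : Function.Injective j) [j.range.FiniteIndex] :
    Module.finrank ℂ (Additive L →+ ℂ) = j.range.index + 1 := by
  rw [hom_congr (MonoidHom.ofInjective hj)]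
  exact hom_sub hSH hZG hcl hab hu j.range

end

end Pool.Agent.R684.VG
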